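import Pool.Agent.MP_885abb_co.H37.Defs
import Pool.Agent.MP_885abb_co.H37.Main

open Pool.Agent.MP_885abb_co.H37

/-- For every `r ≥ 2` there is no constant `C` such that the Schrijver number of the strong product
of `r` finite graphs, each of Schrijver number at least two, is at most the product of the `C`-th
powers of the Schrijver numbers of the factors. -/
theorem Pool.Agent.Results.MP_885abb_co.NoConstant.result :
    ∀ r : ℕ, 2 ≤ r → ¬ ∃ C : ℝ,
      ∀ (V : Fin r → Type) [∀ i, Fintype (V i)] (G : ∀ i, SimpleGraph (V i)),
        (∀ i, 2 ≤ schrijver (G i)) →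
        schrijver (strongProd G) ≤ ∏ i, schrijver (G i) ^ C :=
  fun r hr => no_constant r hr
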